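import Mathlib
import Pool.Agent.Helper71.DKDefs
import Pool.Agent.Helper71.DKWin

/-!
# Infinite misere quotients of Dawson's Kayles at all heap sizes from 34 on

Stronger form of `DawsonInfinite` (the misere quotient at heap size 34 is infinite): for all closed
sets of positions containing the heaps 2, 4, 25, 30, 34, the difference between the numbers of the
heaps 34 and 30 is an invariant of the class, and there are infinitely many classes of P-positions
and infinitely many classes of N-positions; and for the positions which occur in sums of heaps 34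
the structure of the quotient and of the P-positions is determined.
-/

set_option autoImplicit false

namespace Pool.Agent.Results.MP_900c80_co.DawsonAllInfinite

open Pool.Agent.Helper71.DKDefs Pool.Agent.Helper71.DKWin
open Pool.Agent.Helper71.DKMain (cls cls_cons cls_lt act_30 act_34)
open Pool.Agent.Helper71.DKPat (f f_congr Sim)
open Pool.Agent.Helper71.DKOut (Ok)

/-- All positions of Dawson's Kayles (heaps of arbitrary positive sizes). -/
def PosAll : AddSubmonoid (Multiset ℕ) where
  carrier := {G | ∀ m ∈ G, 1 ≤ m}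
  zero_mem' := by intro m hm; simp at hm
  add_mem' := by
    intro G H hG hH m hm
    rw [Multiset.mem_add] at hm
    rcases hm with hm | hm
    · exact hG m hm
    · exact hH m hm

/-- Indistinguishability with respect to a set `A` of positions closed under sums: `H` and `K` are
related if `H + X` and `K + X` have the same misere outcome for every `X` in `A`. -/
def conOn (A : AddSubmonoid (Multiset ℕ)) : AddCon A where
  r H K := ∀ X : A, MisereP ((H : Multiset ℕ) + X) ↔ MisereP ((K : Multiset ℕ) + X)
  iseqv := ⟨fun _ _ => Iff.rfl, fun h X => (h X).symm, fun h h' X => (h X).trans (h' X)⟩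
  add' := by
    intro H K H' K' h h' X
    have e1 := h (H' + X)
    have e2 := h' (K + X)
    rw [AddSubmonoid.coe_add] at e1 e2
    rw [AddSubmonoid.coe_add, AddSubmonoid.coe_add]
    have a1 : (H : Multiset ℕ) + H' + X = (H : Multiset ℕ) + (H' + X) := add_assoc _ _ _
    have a2 : (K : Multiset ℕ) + (H' + X) = (H' : Multiset ℕ) + (K + X) := by
      rw [← add_assoc, ← add_assoc, add_comm (K : Multiset ℕ) H']
    have a3 : (K' : Multiset ℕ) + (K + X) = (K : Multiset ℕ) + K' + X := by
      rw [← add_assoc, add_comm (K' : Multiset ℕ) K]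
    rw [a1, e1, a2, e2, a3]

/-- The misere quotient of the positions in `A`, a commutative monoid. -/
abbrev QuotientOn (A : AddSubmonoid (Multiset ℕ)) : Type := (conOn A).Quotient

/-- `A` contains the single heaps of sizes 2, 4, 25, 30, 34. -/
def Big (A : AddSubmonoid (Multiset ℕ)) : Prop :=
  {2} ∈ A ∧ {4} ∈ A ∧ {25} ∈ A ∧ {30} ∈ A ∧ {34} ∈ A

section

variable {A : AddSubmonoid (Multiset ℕ)}

lemma rep_mem {h : ℕ} (hA : {h} ∈ A) (k : ℕ) : Multiset.replicate k h ∈ A := by
  rw [← Multiset.nsmul_singleton]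
  exact A.nsmul_mem hA k

lemma test_mem (hA : Big A) (k j : ℕ) : test k j ∈ A := by
  unfold test
  refine A.add_mem (rep_mem hA.2.2.2.2 k) (A.add_mem (rep_mem hA.2.2.2.1 j) ?_)
  have h1 : (2 ::ₘ 4 ::ₘ {25} : Multiset ℕ) = {2} + ({4} + {25}) := by
    rw [Multiset.singleton_add, Multiset.singleton_add]
  rw [h1]
  exact A.add_mem hA.1 (A.add_mem hA.2.1 hA.2.2.1)

/-- `a` heaps of size 34 and `b` heaps of size 30 -/
def two (hA : Big A) (a b : ℕ) : A :=
  ⟨Multiset.replicate a 34 + Multiset.replicate b 30,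
    A.add_mem (rep_mem hA.2.2.2.2 a) (rep_mem hA.2.2.2.1 b)⟩

lemma two_add_test (hA : Big A) (a b x y : ℕ) :
    ((two hA a b : A) : Multiset ℕ) + test x y = test (a + x) (b + y) := by
  show Multiset.replicate a 34 + Multiset.replicate b 30 + test x y = _
  unfold test
  rw [Multiset.replicate_add, Multiset.replicate_add]
  abel

/-- The difference of the numbers of the heaps 34 and 30 is an invariant of the class. -/
lemma two_inv (hA : Big A) {a b c d : ℕ} (h : conOn A (two hA a b) (two hA c d)) :
    a + d = c + b := by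
  have h1 : ∀ x y : ℕ, 3 ≤ x → ((b + y) + 2 ≤ a + x ↔ (d + y) + 2 ≤ c + x) := by
    intro x y hx
    have h2 := h ⟨test x y, test_mem hA x y⟩
    rw [two_add_test, two_add_test, test_P (by omega), test_P (by omega)] at h2
    exact h2
  have h3 := h1 (b + d + 3) (c + b + 1) (by omega)
  have h4 := h1 (b + d + 3) (a + d + 1) (by omega)
  omega

lemma test_eq_two (hA : Big A) (k j : ℕ) :
    (⟨test k j, test_mem hA k j⟩ : A) = two hA k j + ⟨test 0 0, test_mem hA 0 0⟩ := by
  apply Subtype.ext
  rw [AddSubmonoid.coe_add]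
  show test k j = ((two hA k j : A) : Multiset ℕ) + test 0 0
  rw [two_add_test, Nat.add_zero, Nat.add_zero]

/-- The same for the positions with additional heaps 2, 4, 25. -/
lemma test_inv (hA : Big A) {a b c d : ℕ}
    (h : conOn A ⟨test a b, test_mem hA a b⟩ ⟨test c d, test_mem hA c d⟩) : a + d = c + b := by
  have h1 : ∀ x y : ℕ, 3 ≤ x → ((b + y) + 2 ≤ a + x ↔ (d + y) + 2 ≤ c + x) := by
    intro x y hx
    have h2 := h (two hA x y)
    have e1 : ∀ u v : ℕ, test u v + ((two hA x y : A) : Multiset ℕ) = test (u + x) (v + y) := by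
      intro u v
      rw [add_comm, two_add_test, Nat.add_comm x u, Nat.add_comm y v]
    have h3 : MisereP (test a b + ((two hA x y : A) : Multiset ℕ)) ↔
      MisereP (test c d + ((two hA x y : A) : Multiset ℕ)) := h2
    rw [e1, e1, test_P (by omega), test_P (by omega)] at h3
    exact h3
  have h3 := h1 (b + d + 3) (c + b + 1) (by omega)
  have h4 := h1 (b + d + 3) (a + d + 1) (by omega)
  omega

end

/-! ### The positions which occur in sums of heaps of size 34 -/

/-- The positions with heaps of sizes `1, ..., 32, 34`. -/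
def PosH : AddSubmonoid (Multiset ℕ) where
  carrier := {G | ∀ h ∈ G, 1 ≤ h ∧ (h ≤ 32 ∨ h = 34)}
  zero_mem' := by intro m hm; simp at hm
  add_mem' := by
    intro G H hG hH m hm
    rw [Multiset.mem_add] at hm
    rcases hm with hm | hm
    · exact hG m hm
    · exact hH m hm

lemma bigH : Big PosH := by
  refine ⟨?_, ?_, ?_, ?_, ?_⟩ <;>
    · intro m hm
      rw [Multiset.mem_singleton] at hm
      omega

lemma cls_add_congr {X Y : Multiset ℕ} (h : cls X = cls Y) (Z : Multiset ℕ) :
    cls (X + Z) = cls (Y + Z) := by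
  induction Z using Multiset.induction_on with
  | empty => rwa [add_zero, add_zero]
  | cons a Z ih => rw [Multiset.add_cons, Multiset.add_cons, cls_cons, cls_cons, ih]

lemma outc {G : Multiset ℕ} (hG : Ok G) : MisereP G ↔
    f (Pool.Agent.Helper71.DKData.code (Pool.Agent.Helper71.DKData.ty (cls G)))
      (G.count 34) (G.count 30) = true :=
  outcome _ _ rfl hG

/-- A sufficient condition for the equality of the classes. -/
lemma rel_of {G H : PosH} (hc : cls (G : Multiset ℕ) = cls (H : Multiset ℕ))
    (hs : ((G : Multiset ℕ).count 34 = (H : Multiset ℕ).count 34 ∧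
        (G : Multiset ℕ).count 30 = (H : Multiset ℕ).count 30) ∨
      (3 ≤ (G : Multiset ℕ).count 34 ∧ 3 ≤ (H : Multiset ℕ).count 34 ∧
        1 ≤ (G : Multiset ℕ).count 30 ∧ 1 ≤ (H : Multiset ℕ).count 30 ∧
        (G : Multiset ℕ).count 34 + (H : Multiset ℕ).count 30 =
          (H : Multiset ℕ).count 34 + (G : Multiset ℕ).count 30)) : conOn PosH G H := by
  intro X
  have hG : Ok ((G : Multiset ℕ) + X) := (G + X).2
  have hH : Ok ((H : Multiset ℕ) + X) := (H + X).2
  rw [outc hG, outc hH, cls_add_congr hc X, Multiset.count_add, Multiset.count_add,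
    Multiset.count_add, Multiset.count_add]
  obtain ⟨k, hk⟩ : ∃ k, k = (G : Multiset ℕ).count 34 := ⟨_, rfl⟩
  obtain ⟨j, hj⟩ : ∃ j, j = (G : Multiset ℕ).count 30 := ⟨_, rfl⟩
  obtain ⟨k', hk'⟩ : ∃ k', k' = (H : Multiset ℕ).count 34 := ⟨_, rfl⟩
  obtain ⟨j', hj'⟩ : ∃ j', j' = (H : Multiset ℕ).count 30 := ⟨_, rfl⟩
  obtain ⟨p, hp⟩ : ∃ p, p = (X : Multiset ℕ).count 34 := ⟨_, rfl⟩
  obtain ⟨q, hq⟩ : ∃ q, q = (X : Multiset ℕ).count 30 := ⟨_, rfl⟩
  rw [← hk, ← hj, ← hk', ← hj'] at hs
  rw [← hk, ← hj, ← hk', ← hj', ← hp, ← hq]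
  rcases hs with ⟨h1, h2⟩ | ⟨h1, h2, h3, h4, h5⟩
  · rw [h1, h2]
  · have h6 : Sim (k + p) (j + q) (k' + p) (j' + q) := by
      unfold Pool.Agent.Helper71.DKPat.Sim
      omega
    rw [f_congr h6]

lemma cls_two (a b : ℕ) (G : Multiset ℕ) :
    cls (((two bigH a b : PosH) : Multiset ℕ) + G) = cls G := by
  show cls (Multiset.replicate a 34 + Multiset.replicate b 30 + G) = _
  rw [add_assoc, cls_rep_add 34 a _ (fun m _ => act_34 m), cls_rep_add 30 b _ act_30]

lemma count34_two (a b : ℕ) : ((two bigH a b : PosH) : Multiset ℕ).count 34 = a := by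
  show (Multiset.replicate a 34 + Multiset.replicate b 30).count 34 = a
  rw [Multiset.count_add, Multiset.count_replicate_self, Multiset.count_replicate]
  simp

lemma count30_two (a b : ℕ) : ((two bigH a b : PosH) : Multiset ℕ).count 30 = b := by
  show (Multiset.replicate a 34 + Multiset.replicate b 30).count 30 = b
  rw [Multiset.count_add, Multiset.count_replicate_self, Multiset.count_replicate]
  simp

lemma cls_filter (G : Multiset ℕ) : cls (G.filter fun h => h ≠ 34 ∧ h ≠ 30) = cls G := by
  induction G using Multiset.induction_on with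
  | empty => rfl
  | cons a G ih =>
    by_cases h34 : a = 34
    · subst h34
      rw [Multiset.filter_cons_of_neg _ (by simp), ih, cls_cons, act_34]
    · by_cases h30 : a = 30
      · subst h30
        rw [Multiset.filter_cons_of_neg _ (by simp), ih, cls_cons, act_30 _ (cls_lt G)]
      · rw [Multiset.filter_cons_of_pos _ ⟨h34, h30⟩, cls_cons, cls_cons, ih]

open Classical in
/-- a position of class `m` without heaps 30 and 34, if there is one -/
noncomputable def rp (m : ℕ) : PosH :=
  if h : ∃ R : PosH, cls (R : Multiset ℕ) = m ∧ (R : Multiset ℕ).count 34 = 0 ∧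
    (R : Multiset ℕ).count 30 = 0 then h.choose else 0

lemma rp_spec (G : PosH) : cls (rp (cls (G : Multiset ℕ)) : Multiset ℕ) = cls (G : Multiset ℕ) ∧
    (rp (cls (G : Multiset ℕ)) : Multiset ℕ).count 34 = 0 ∧
    (rp (cls (G : Multiset ℕ)) : Multiset ℕ).count 30 = 0 := by
  have h : ∃ R : PosH, cls (R : Multiset ℕ) = cls (G : Multiset ℕ) ∧
      (R : Multiset ℕ).count 34 = 0 ∧ (R : Multiset ℕ).count 30 = 0 := by
    refine ⟨⟨(G : Multiset ℕ).filter fun h => h ≠ 34 ∧ h ≠ 30, fun h hh =>
      G.2 h (Multiset.mem_of_mem_filter hh)⟩, cls_filter _, ?_, ?_⟩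
    · exact Multiset.count_eq_zero_of_notMem fun hh => (Multiset.of_mem_filter hh).1 rfl
    · exact Multiset.count_eq_zero_of_notMem fun hh => (Multiset.of_mem_filter hh).2 rfl
  unfold rp
  rw [dif_pos h]
  exact h.choose_spec

lemma rp_zero (m : ℕ) : (rp m : Multiset ℕ).count 34 = 0 ∧ (rp m : Multiset ℕ).count 30 = 0 := by
  classical
  unfold rp
  split_ifs with h
  · exact h.choose_spec.2
  · exact ⟨Multiset.count_zero 34, Multiset.count_zero 30⟩

/-- every position has the class of a sum of one of 664 positions without heaps 30, 34 and of its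
heaps 34, 30 -/
lemma structure_H (G : PosH) : (G : QuotientOn PosH) =
    ((rp (cls (G : Multiset ℕ)) + two bigH ((G : Multiset ℕ).count 34)
      ((G : Multiset ℕ).count 30) : PosH) : QuotientOn PosH) := by
  obtain ⟨h1, h2, h3⟩ := rp_spec G
  refine (conOn PosH).eq.mpr (rel_of ?_ (Or.inl ⟨?_, ?_⟩))
  · rw [AddSubmonoid.coe_add, add_comm, cls_two, h1]
  · rw [AddSubmonoid.coe_add, Multiset.count_add, count34_two, h2, zero_add]
  · rw [AddSubmonoid.coe_add, Multiset.count_add, count30_two, h3, zero_add]

lemma cls_add_two (R : PosH) (a b : ℕ) :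
    cls ((R + two bigH a b : PosH) : Multiset ℕ) = cls (R : Multiset ℕ) := by
  rw [AddSubmonoid.coe_add, add_comm, cls_two]

lemma shift_H (R : PosH) {a b c d : ℕ} (ha : 3 ≤ a) (hc : 3 ≤ c) (hb : 1 ≤ b) (hd : 1 ≤ d)
    (h : a + d = c + b) :
    ((R + two bigH a b : PosH) : QuotientOn PosH) = ((R + two bigH c d : PosH) :
      QuotientOn PosH) := by
  refine (conOn PosH).eq.mpr (rel_of ?_ (Or.inr ?_))
  · rw [cls_add_two, cls_add_two]
  · rw [AddSubmonoid.coe_add, AddSubmonoid.coe_add, Multiset.count_add, Multiset.count_add,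
      Multiset.count_add, Multiset.count_add, count34_two, count34_two, count30_two, count30_two]
    omega

/-- Seven sets of pairs `(k, j)`. -/
def patterns : Set (ℕ → ℕ → Prop) :=
  {fun _ _ => False, fun k j => (k + j) % 2 = 0, fun k j => (k + j) % 2 = 1,
    fun k j => k ≤ j ∧ (k + j) % 2 = 0, fun k j => j + 2 ≤ k,
    fun k j => k ≤ j + 1 ∧ (k + j) % 2 = 1, fun k j => j = 0 ∧ k % 2 = 1}

lemma tail_pattern (t : ℕ) : ∃ Q ∈ patterns, ∀ k j : ℕ,
    (Pool.Agent.Helper71.DKPat.tail t k j = true ↔ Q k j) := by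
  unfold patterns Pool.Agent.Helper71.DKPat.tail
  split
  · exact ⟨fun k j => (k + j) % 2 = 0, by simp, fun k j => decide_eq_true_iff⟩
  · exact ⟨fun k j => (k + j) % 2 = 1, by simp, fun k j => decide_eq_true_iff⟩
  · exact ⟨fun k j => k ≤ j ∧ (k + j) % 2 = 0, by simp, fun k j => decide_eq_true_iff⟩
  · exact ⟨fun k j => j + 2 ≤ k, by simp, fun k j => decide_eq_true_iff⟩
  · exact ⟨fun k j => k ≤ j + 1 ∧ (k + j) % 2 = 1, by simp, fun k j => decide_eq_true_iff⟩
  · exact ⟨fun k j => j = 0 ∧ k % 2 = 1, by simp, fun k j => decide_eq_true_iff⟩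
  · exact ⟨fun _ _ => False, by simp, fun k j => by simp⟩

lemma outc_two (R : PosH) (h34 : (R : Multiset ℕ).count 34 = 0)
    (h30 : (R : Multiset ℕ).count 30 = 0) (k j : ℕ) :
    MisereP ((R + two bigH k j : PosH) : Multiset ℕ) ↔
      f (Pool.Agent.Helper71.DKData.code (Pool.Agent.Helper71.DKData.ty
        (cls (R : Multiset ℕ)))) k j = true := by
  have hG : Ok ((R + two bigH k j : PosH) : Multiset ℕ) := (R + two bigH k j).2
  rw [outc hG, cls_add_two, AddSubmonoid.coe_add, Multiset.count_add, Multiset.count_add,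
    count34_two, count30_two, h34, h30, zero_add, zero_add]

lemma pattern_H (R : PosH) (h34 : (R : Multiset ℕ).count 34 = 0)
    (h30 : (R : Multiset ℕ).count 30 = 0) : ∃ Q ∈ patterns, ∀ k j : ℕ, 3 ≤ k →
      (MisereP ((R + two bigH k j : PosH) : Multiset ℕ) ↔ Q k j) := by
  obtain ⟨Q, hQ, h⟩ := tail_pattern (Pool.Agent.Helper71.DKData.code
    (Pool.Agent.Helper71.DKData.ty (cls (R : Multiset ℕ))) / 4096)
  refine ⟨Q, hQ, fun k j hk => ?_⟩
  rw [outc_two R h34 h30, ← h k j]
  unfold Pool.Agent.Helper71.DKPat.f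
  rw [if_neg (by omega)]

lemma period_H (R : PosH) (h34 : (R : Multiset ℕ).count 34 = 0)
    (h30 : (R : Multiset ℕ).count 30 = 0) (k j : ℕ) (hk : k < 3) (hj : 2 ≤ j) :
    MisereP ((R + two bigH k (j + 2) : PosH) : Multiset ℕ) ↔
      MisereP ((R + two bigH k j : PosH) : Multiset ℕ) := by
  rw [outc_two R h34 h30, outc_two R h34 h30]
  have h6 : Sim k (j + 2) k j := by
    unfold Pool.Agent.Helper71.DKPat.Sim
    omega
  rw [f_congr h6]

/-- **Misere quotients of Dawson's Kayles.**
(1) The misere quotient at heap size `n` is infinite for every `n ≥ 34`, and so is the misere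
quotient of the complete game.
(2) Let `A` be any set of positions closed under sums which contains the single heaps of sizes
2, 4, 25, 30, 34. If the positions with `a` heaps 34 and `b` heaps 30, and with `c` heaps 34 and `d`
heaps 30 have the same class in the misere quotient of `A`, then `a - b = c - d`. The misere
quotient of `A` has infinitely many classes of P-positions and infinitely many classes of
N-positions.
(3) The structure for the set `PosH` of the positions with heaps of sizes 1, ..., 32, 34 (the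
positions which occur in sums of heaps 34). It is closed under moves. There are 664 positions `R i`
without heaps 30, 34 such that every position in `PosH` with `k` heaps 34 and `j` heaps 30 has the
class of some `R i` together with `k` heaps 34 and `j` heaps 30. Adding `a` heaps 34 and `b` heaps
30 to `R` gives the same class as adding `c` heaps 34 and `d` heaps 30, if `a, c ≥ 3`, `b, d ≥ 1`
and `a - b = c - d`. For every `R` without heaps 30, 34 the set of the pairs `(k, j)`, `k ≥ 3`, for
which `R` with `k` heaps 34 and `j` heaps 30 is a P-position is one of seven explicit sets; and for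
`k ≤ 2` this depends for `j ≥ 2` only on the parity of `j`. -/
theorem result :
    ((∀ n : ℕ, 34 ≤ n → Infinite (MisereQuotient n)) ∧ Infinite (QuotientOn PosAll)) ∧
    (∀ (A : AddSubmonoid (Multiset ℕ)) (hA : Big A),
      (∀ a b c d : ℕ, ((two hA a b : A) : QuotientOn A) = ((two hA c d : A) : QuotientOn A) →
        a + d = c + b) ∧
      {q : QuotientOn A | ∃ G : A, MisereP (G : Multiset ℕ) ∧ (G : QuotientOn A) = q}.Infinite ∧
      {q : QuotientOn A | ∃ G : A, ¬ MisereP (G : Multiset ℕ) ∧
        (G : QuotientOn A) = q}.Infinite) ∧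
    ((∀ G G' : Multiset ℕ, G ∈ PosH → Move G G' → G' ∈ PosH) ∧
      (∃ R : Fin 664 → PosH, (∀ i, (R i : Multiset ℕ).count 34 = 0 ∧
          (R i : Multiset ℕ).count 30 = 0) ∧
        ∀ G : PosH, ∃ i, (G : QuotientOn PosH) = ((R i + two bigH ((G : Multiset ℕ).count 34)
          ((G : Multiset ℕ).count 30) : PosH) : QuotientOn PosH)) ∧
      (∀ (R : PosH) (a b c d : ℕ), 3 ≤ a → 3 ≤ c → 1 ≤ b → 1 ≤ d → a + d = c + b →
        ((R + two bigH a b : PosH) : QuotientOn PosH) =
          ((R + two bigH c d : PosH) : QuotientOn PosH)) ∧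
      ∀ R : PosH, (R : Multiset ℕ).count 34 = 0 → (R : Multiset ℕ).count 30 = 0 →
        (∃ Q ∈ patterns, ∀ k j : ℕ, 3 ≤ k →
          (MisereP ((R + two bigH k j : PosH) : Multiset ℕ) ↔ Q k j)) ∧
        ∀ k j : ℕ, k < 3 → 2 ≤ j → (MisereP ((R + two bigH k (j + 2) : PosH) : Multiset ℕ) ↔
          MisereP ((R + two bigH k j : PosH) : Multiset ℕ))) := by
  have key : ∀ (A : AddSubmonoid (Multiset ℕ)) (hA : Big A) (a b c d : ℕ),
      ((two hA a b : A) : QuotientOn A) = ((two hA c d : A) : QuotientOn A) → a + d = c + b :=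
    fun A hA a b c d h => two_inv hA ((conOn A).eq.mp h)
  have inf : ∀ (A : AddSubmonoid (Multiset ℕ)), Big A → Infinite (QuotientOn A) := by
    intro A hA
    refine Infinite.of_injective (fun a : ℕ => ((two hA a 0 : A) : QuotientOn A)) ?_
    intro a b hab
    have := key A hA a 0 b 0 hab
    omega
  refine ⟨⟨fun n hn => ?_, ?_⟩, fun A hA => ⟨key A hA, ?_, ?_⟩, fun G G' h1 h2 => ok_move h1 h2,
    ⟨fun i => rp i, fun i => rp_zero i, fun G => ⟨⟨cls (G : Multiset ℕ), cls_lt _⟩,
      structure_H G⟩⟩, fun R a b c d ha hc hb hd h => shift_H R ha hc hb hd h,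
    fun R h34 h30 => ⟨pattern_H R h34 h30, fun k j hk hj => period_H R h34 h30 k j hk hj⟩⟩
  · have hA : Big (Pos n) := by
      refine ⟨?_, ?_, ?_, ?_, ?_⟩ <;>
        · intro m hm
          rw [Multiset.mem_singleton] at hm
          omega
    exact inf (Pos n) hA
  · have hA : Big PosAll := by
      refine ⟨?_, ?_, ?_, ?_, ?_⟩ <;>
        · intro m hm
          rw [Multiset.mem_singleton] at hm
          omega
    exact inf PosAll hA
  · refine Set.infinite_of_injective_forall_mem
      (f := fun k : ℕ => (((⟨test (k + 3) 0, test_mem hA (k + 3) 0⟩ : A)) : QuotientOn A)) ?_ ?_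
    · intro a b hab
      have := test_inv hA ((conOn A).eq.mp hab)
      omega
    · intro k
      exact ⟨_, (test_P (by omega) 0).2 (by omega), rfl⟩
  · refine Set.infinite_of_injective_forall_mem
      (f := fun j : ℕ => (((⟨test 3 (j + 2), test_mem hA 3 (j + 2)⟩ : A)) : QuotientOn A)) ?_ ?_
    · intro a b hab
      have := test_inv hA ((conOn A).eq.mp hab)
      omega
    · intro j
      exact ⟨_, fun h => absurd ((test_P (le_refl 3) (j + 2)).1 h) (by omega), rfl⟩

end Pool.Agent.Results.MP_900c80_co.DawsonAllInfinite
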